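import Pool.Agent.Lib.MP_58a483_pr.RFin

/-!
Asymptotic expansion to all orders of the critical value of percolation on Hamming graphs: the
coefficients are rational functions of the dimension given by a finite algorithm, and the first
three are given in closed form.
-/

open Finset HamPerc

theorem Pool.Agent.Results.MP_58a483_pr.Algorithm.result :
    (∀ d : ℕ, 3 ≤ d → ∀ lam : ℝ, 0 < lam → ∃ (C : ℝ) (n₀ : ℕ), ∀ n ≥ n₀, ∀ x : Fin d → Fin n,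
      (∃ p ∈ Set.Icc (0 : ℝ) 1, susc d n x p = lam * ((n : ℝ) ^ d) ^ (1 / 3 : ℝ)) ∧
      ∀ p ∈ Set.Icc (0 : ℝ) 1, susc d n x p = lam * ((n : ℝ) ^ d) ^ (1 / 3 : ℝ) →
        |p - ∑ i ∈ Icc 1 ⌈(d : ℝ) / 3⌉₊, (acoef d i : ℝ) / (n : ℝ) ^ i| ≤
          C * (n : ℝ) ^ (-1 - (d : ℝ) / 3)) ∧
    (∀ i : ℕ, 1 ≤ i → ∃ (P : Polynomial ℚ) (m : ℕ), ∀ d : ℕ, i ≤ d →
      acoef d i = P.eval (d : ℚ) / (∏ j ∈ range i, ((d : ℚ) - j)) ^ m) ∧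
    ∀ d : ℕ, 3 ≤ d → acoef d 1 = 1 / (d : ℚ) ∧
      acoef d 2 = (2 * (d : ℚ) ^ 3 - 2 * (d : ℚ) ^ 2 + 2 * (d : ℚ) - 1) /
        (2 * (d : ℚ) ^ 2 * ((d : ℚ) - 1) ^ 2) ∧
      acoef d 3 = (6 * (d : ℚ) ^ 9 - 42 * (d : ℚ) ^ 8 + 129 * (d : ℚ) ^ 7 - 231 * (d : ℚ) ^ 6 +
        285 * (d : ℚ) ^ 5 - 259 * (d : ℚ) ^ 4 + 159 * (d : ℚ) ^ 3 - 73 * (d : ℚ) ^ 2 +
        24 * (d : ℚ) - 4) / (6 * (d : ℚ) ^ 3 * ((d : ℚ) - 1) ^ 5 * ((d : ℚ) - 2) ^ 2) :=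
  ⟨fun _ hd _ hl => RG.expansion hd hl, fun _ hi => RG.acoef_rat RG.num_zero hi,
    fun d hd => ⟨RG.acoef_one d, RG.acoef_two d (by omega), RG.acoef_three d hd⟩⟩
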